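import Pool.Agent.helper37.CZ.SpecD

/-!
# MP_376aaf_an, row cz:FLW
-/

set_option autoImplicit false

open scoped Matrix Topology ComplexConjugate
open Filter

namespace Pool.Agent.CZ

section

variable {X : Type}

/-- the finite sums: `S`, `T` are the cocycles, `ρ n x` the slope on the `n`-th segment -/
noncomputable def FLW_G (S T ρ : ℤ → X → ℝ) (a : ℤ) (k : ℕ) (x : X) (s : ℝ) : ℝ :=
  T a x + ∑ j ∈ Finset.range k,
    ρ (a + j) x * (min s (S (a + j + 1) x) - min s (S (a + j) x))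

theorem FLW_right {S T ρ : ℤ → X → ℝ} (hS : ∀ n x, S n x ≤ S (n + 1) x) (a : ℤ) (k : ℕ) (x : X)
    (s : ℝ) (h : s ≤ S (a + k) x) : FLW_G S T ρ a (k + 1) x s = FLW_G S T ρ a k x s := by
  unfold FLW_G
  rw [Finset.sum_range_succ, min_eq_left h, min_eq_left (h.trans (hS _ _)), sub_self, mul_zero,
    add_zero]

theorem FLW_left {S T ρ : ℤ → X → ℝ} (hS : ∀ n x, S n x ≤ S (n + 1) x)
    (hT : ∀ n x, T (n + 1) x = T n x + ρ n x * (S (n + 1) x - S n x)) (a : ℤ) (k : ℕ) (x : X)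
    (s : ℝ) (h : S a x ≤ s) : FLW_G S T ρ (a - 1) (k + 1) x s = FLW_G S T ρ a k x s := by
  unfold FLW_G
  have e1 : a - 1 + ((0 : ℕ) : ℤ) = a - 1 := by simp
  have e2 : a - 1 + 1 = a := by ring
  have h1 := hT (a - 1) x
  have h2 := hS (a - 1) x
  rw [e2] at h1 h2
  rw [Finset.sum_range_succ', e1, e2, min_eq_right h, min_eq_right (h2.trans h), h1]
  have e3 : ∀ j ∈ Finset.range k, ρ (a - 1 + ((j + 1 : ℕ) : ℤ)) x *
      (min s (S (a - 1 + ((j + 1 : ℕ) : ℤ) + 1) x) - min s (S (a - 1 + ((j + 1 : ℕ) : ℤ)) x)) =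
      ρ (a + j) x * (min s (S (a + j + 1) x) - min s (S (a + j) x)) := by
    intro j _
    have : a - 1 + ((j + 1 : ℕ) : ℤ) = a + j := by push_cast; ring
    rw [this]
  rw [Finset.sum_congr rfl e3]
  ring

theorem FLW_window {S T ρ : ℤ → X → ℝ} (hS : ∀ n x, S n x ≤ S (n + 1) x)
    (hT : ∀ n x, T (n + 1) x = T n x + ρ n x * (S (n + 1) x - S n x)) (a : ℤ) (k : ℕ) (x : X)
    (s : ℝ) (h1 : S a x ≤ s) (h2 : s ≤ S (a + k) x) (p q : ℕ) :
    FLW_G S T ρ (a - p) (p + k + q) x s = FLW_G S T ρ a k x s := by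
  have hmono : ∀ (n : ℤ) (j : ℕ), S n x ≤ S (n + j) x := by
    intro n j
    induction j with
    | zero => simp
    | succ j ih =>
      refine ih.trans ?_
      have := hS (n + j) x
      rwa [show n + (j : ℤ) + 1 = n + ((j + 1 : ℕ) : ℤ) by push_cast; ring] at this
  induction q with
  | zero =>
    induction p with
    | zero => simp
    | succ p ih =>
      have e1 : a - ((p + 1 : ℕ) : ℤ) = a - p - 1 := by push_cast; ring
      have e2 : p + 1 + k + 0 = (p + k) + 1 := by ring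
      rw [add_zero] at ih
      rw [e1, e2, FLW_left hS hT, ih]
      have := hmono (a - p) p
      rw [sub_add_cancel] at this
      exact this.trans h1
  | succ q ih =>
    rw [← add_assoc, FLW_right hS, ih]
    refine h2.trans ?_
    have := hmono (a + k) q
    have e : a + (k : ℤ) + q = a - p + ((p + k + q : ℕ) : ℤ) := by push_cast; ring
    rwa [e] at this

/-- bounds of the increments -/
theorem FLW_incr {S T ρ : ℤ → X → ℝ} {δ₀ : ℝ} (hS : ∀ n x, S n x ≤ S (n + 1) x)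
    (hρ : ∀ n x, δ₀ ≤ ρ n x ∧ ρ n x ≤ 1 - δ₀) (a : ℤ) (k : ℕ) (x : X) (s s' : ℝ) (hs : s ≤ s')
    (h1 : S a x ≤ s) (h2 : s' ≤ S (a + k) x) :
    δ₀ * (s' - s) ≤ FLW_G S T ρ a k x s' - FLW_G S T ρ a k x s ∧
      FLW_G S T ρ a k x s' - FLW_G S T ρ a k x s ≤ (1 - δ₀) * (s' - s) := by
  have e1 : FLW_G S T ρ a k x s' - FLW_G S T ρ a k x s = ∑ j ∈ Finset.range k,
      ρ (a + j) x * ((min s' (S (a + j + 1) x) - min s' (S (a + j) x)) -
        (min s (S (a + j + 1) x) - min s (S (a + j) x))) := by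
    unfold FLW_G
    rw [add_sub_add_left_eq_sub, ← Finset.sum_sub_distrib]
    apply Finset.sum_congr rfl
    intro j _
    ring
  have tel : ∀ t : ℝ, S a x ≤ t → t ≤ S (a + k) x → ∑ j ∈ Finset.range k,
      (min t (S (a + j + 1) x) - min t (S (a + j) x)) = t - S a x := by
    intro t ht1 ht2
    have := Finset.sum_range_sub (fun j : ℕ => min t (S (a + j) x)) k
    have e : ∀ j ∈ Finset.range k, (min t (S (a + ((j + 1 : ℕ) : ℤ)) x) - min t (S (a + j) x)) =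
        (min t (S (a + j + 1) x) - min t (S (a + j) x)) := by
      intro j _
      rw [show a + ((j + 1 : ℕ) : ℤ) = a + j + 1 by push_cast; ring]
    rw [Finset.sum_congr rfl e] at this
    rw [this, min_eq_left ht2, Nat.cast_zero, add_zero, min_eq_right ht1]
  have hd : ∑ j ∈ Finset.range k, ((min s' (S (a + j + 1) x) - min s' (S (a + j) x)) -
      (min s (S (a + j + 1) x) - min s (S (a + j) x))) = s' - s := by
    rw [Finset.sum_sub_distrib, tel s' (h1.trans hs) h2, tel s h1 (hs.trans h2)]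
    ring
  have hpos : ∀ j : ℕ, 0 ≤ ((min s' (S (a + j + 1) x) - min s' (S (a + j) x)) -
      (min s (S (a + j + 1) x) - min s (S (a + j) x))) := by
    intro j
    have h3 := hS (a + j) x
    rcases le_total s (S (a + j) x) with h4 | h4
    · rw [min_eq_left h4, min_eq_left (h4.trans h3), sub_self, sub_zero, sub_nonneg]
      exact min_le_min_left _ h3
    · rw [min_eq_right h4, min_eq_right (h4.trans hs)]
      have := min_le_min_right (S (a + j + 1) x) hs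
      linarith
  rw [e1]
  constructor
  · rw [← hd, Finset.mul_sum]
    exact Finset.sum_le_sum fun j _ => mul_le_mul_of_nonneg_right (hρ _ _).1 (hpos j)
  · rw [← hd, Finset.mul_sum]
    exact Finset.sum_le_sum fun j _ => mul_le_mul_of_nonneg_right (hρ _ _).2 (hpos j)

end

theorem FLW_low {X : Type} [TopologicalSpace X] [CompactSpace X] (f : X → ℝ) (hf : Continuous f)
    (hp : ∀ x, 0 < f x) : ∃ δ : ℝ, 0 < δ ∧ ∀ x, δ ≤ f x := by
  rcases isEmpty_or_nonempty X with hX | hX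
  · exact ⟨1, one_pos, fun x => isEmptyElim x⟩
  · obtain ⟨x0, _, hx0⟩ := isCompact_univ.exists_isMinOn Set.univ_nonempty hf.continuousOn
    exact ⟨f x0, hp x0, fun x => hx0 (Set.mem_univ x)⟩

theorem FLW (h1 : CSM_stmt) : FLW_stmt := by
  intro X _ _ α h₁ h₂ hh1 hh2
  obtain ⟨h, hh⟩ : ∃ h : C(X, ℝ), h = h₁ + h₂ := ⟨_, rfl⟩
  have hhx : ∀ x, h x = h₁ x + h₂ x := fun x => by rw [hh]; rfl
  have hpos : ∀ x, 0 < h x := fun x => by rw [hhx]; exact add_pos (hh1 x) (hh2 x)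
  obtain ⟨δ, hδ, hδh⟩ := FLW_low (fun x => h x) h.continuous hpos
  obtain ⟨δ1, hδ1, hδ1h⟩ := FLW_low (fun x => h₁ x / h x)
    (h₁.continuous.div h.continuous fun x => (hpos x).ne') (fun x => div_pos (hh1 x) (hpos x))
  obtain ⟨δ2, hδ2, hδ2h⟩ := FLW_low (fun x => h₂ x / h x)
    (h₂.continuous.div h.continuous fun x => (hpos x).ne') (fun x => div_pos (hh2 x) (hpos x))
  obtain ⟨-, hS1, hSadd, hSc', hSlow', -⟩ := h1 X α h
  obtain ⟨-, hT1, hTadd, hTc', -, -⟩ := h1 X α h₁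
  obtain ⟨S, hSdef⟩ : ∃ S : ℤ → X → ℝ, ∀ n x, S n x = csum α h n x := ⟨_, fun _ _ => rfl⟩
  obtain ⟨T, hTdef⟩ : ∃ T : ℤ → X → ℝ, ∀ n x, T n x = csum α h₁ n x := ⟨_, fun _ _ => rfl⟩
  obtain ⟨ρ, hρdef⟩ : ∃ ρ : ℤ → X → ℝ, ∀ n x, ρ n x = h₁ ((α ^ n) x) / h ((α ^ n) x) :=
    ⟨_, fun _ _ => rfl⟩
  obtain ⟨δ₀, hδ₀⟩ : ∃ δ₀ : ℝ, δ₀ = min δ1 δ2 := ⟨_, rfl⟩
  have hSc : ∀ n, Continuous (S n) := by
    intro n
    have : S n = csum α h n := funext fun x => hSdef n x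
    rw [this]
    exact hSc' n
  have hTc : ∀ n, Continuous (T n) := by
    intro n
    have : T n = csum α h₁ n := funext fun x => hTdef n x
    rw [this]
    exact hTc' n
  have hSlow : ∀ (n : ℤ) x, (0 ≤ n → n * δ ≤ S n x) ∧ (n ≤ 0 → S n x ≤ n * δ) := by
    intro n x
    rw [hSdef]
    exact hSlow' δ hδh n x
  have hρ : ∀ n x, δ₀ ≤ ρ n x ∧ ρ n x ≤ 1 - δ₀ := by
    intro n x
    rw [hρdef, hδ₀]
    refine ⟨(min_le_left _ _).trans (hδ1h _), ?_⟩
    have h3 : h₁ ((α ^ n) x) / h ((α ^ n) x) = 1 - h₂ ((α ^ n) x) / h ((α ^ n) x) := by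
      rw [eq_sub_iff_add_eq, ← add_div, ← hhx, div_self (hpos _).ne']
    rw [h3]
    have := (min_le_right δ1 δ2).trans (hδ2h ((α ^ n) x))
    linarith
  have hSs : ∀ n x, S (n + 1) x = S n x + h ((α ^ n) x) := by
    intro n x
    rw [hSdef, hSdef, hSadd, hS1]
  have hTs : ∀ n x, T (n + 1) x = T n x + h₁ ((α ^ n) x) := by
    intro n x
    rw [hTdef, hTdef, hTadd, hT1]
  have hSm : ∀ n x, S n x ≤ S (n + 1) x := by
    intro n x
    rw [hSs]
    linarith [hpos ((α ^ n) x)]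
  have hTm : ∀ n x, T (n + 1) x = T n x + ρ n x * (S (n + 1) x - S n x) := by
    intro n x
    rw [hTs, hSs, hρdef, add_sub_cancel_left, div_mul_cancel₀ _ (hpos _).ne']
  -- the windows
  have hwin : ∀ (s : ℝ) (M : ℕ) (x : X), ⌈|s| / δ⌉₊ ≤ M →
      S (-(M : ℤ)) x ≤ s ∧ s ≤ S (-(M : ℤ) + ((2 * M : ℕ) : ℤ)) x := by
    intro s M x hM
    have h3 : |s| ≤ M * δ := by
      have h4 : |s| / δ ≤ M := (Nat.le_ceil _).trans (by exact_mod_cast hM)
      rwa [div_le_iff₀ hδ] at h4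
    constructor
    · have h5 := (hSlow (-(M : ℤ)) x).2 (by omega)
      have h6 : ((-(M : ℤ) : ℤ) : ℝ) * δ = -(M * δ) := by push_cast; ring
      rw [h6] at h5
      exact h5.trans (by linarith [neg_abs_le s])
    · have h5 := (hSlow (M : ℤ) x).1 (by omega)
      have h6 : -(M : ℤ) + ((2 * M : ℕ) : ℤ) = M := by push_cast; ring
      rw [h6]
      have h7 : (((M : ℤ) : ℤ) : ℝ) * δ = M * δ := by push_cast; ring
      rw [h7] at h5
      exact le_trans (by linarith [le_abs_self s]) h5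
  obtain ⟨R, hR⟩ : ∃ R : X → ℝ → ℝ, ∀ x s, R x s =
      FLW_G S T ρ (-((⌈|s| / δ⌉₊ : ℕ) : ℤ)) (2 * ⌈|s| / δ⌉₊) x s := ⟨_, fun _ _ => rfl⟩
  have hRw : ∀ (s : ℝ) (M : ℕ) (x : X), ⌈|s| / δ⌉₊ ≤ M →
      FLW_G S T ρ (-(M : ℤ)) (2 * M) x s = R x s := by
    intro s M x hM
    obtain ⟨hw1, hw2⟩ := hwin s ⌈|s| / δ⌉₊ x le_rfl
    have h3 := FLW_window hSm hTm _ _ x s hw1 hw2 (M - ⌈|s| / δ⌉₊) (M - ⌈|s| / δ⌉₊)
    have e1 : -((⌈|s| / δ⌉₊ : ℕ) : ℤ) - ((M - ⌈|s| / δ⌉₊ : ℕ) : ℤ) = -(M : ℤ) := by omega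
    have e2 : M - ⌈|s| / δ⌉₊ + 2 * ⌈|s| / δ⌉₊ + (M - ⌈|s| / δ⌉₊) = 2 * M := by omega
    rw [e1, e2] at h3
    rw [hR]
    exact h3
  have hRw' : ∀ (s : ℝ) (M : ℕ) (x : X), ⌈|s| / δ⌉₊ + 1 ≤ M →
      FLW_G S T ρ (-(M : ℤ) + 1) (2 * M) x s = R x s := by
    intro s M x hM
    obtain ⟨hw1, hw2⟩ := hwin s ⌈|s| / δ⌉₊ x le_rfl
    have h3 := FLW_window hSm hTm _ _ x s hw1 hw2 (M - 1 - ⌈|s| / δ⌉₊) (M + 1 - ⌈|s| / δ⌉₊)
    have e1 : -((⌈|s| / δ⌉₊ : ℕ) : ℤ) - ((M - 1 - ⌈|s| / δ⌉₊ : ℕ) : ℤ) = -(M : ℤ) + 1 := by omega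
    have e2 : M - 1 - ⌈|s| / δ⌉₊ + 2 * ⌈|s| / δ⌉₊ + (M + 1 - ⌈|s| / δ⌉₊) = 2 * M := by omega
    rw [e1, e2] at h3
    rw [hR]
    exact h3
  have hshift : ∀ x s, R (α x) (s - h x) = R x s - h₁ x := by
    intro x s
    obtain ⟨M, hM1, hM2⟩ : ∃ M : ℕ, ⌈|s - h x| / δ⌉₊ ≤ M ∧ ⌈|s| / δ⌉₊ + 1 ≤ M :=
      ⟨max _ _, le_max_left _ _, le_max_right _ _⟩
    rw [← hRw _ M _ hM1, ← hRw' _ M _ hM2]
    have hpow : ∀ n : ℤ, (α ^ n) (α x) = (α ^ (n + 1)) x := by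
      intro n
      rw [zpow_add, zpow_one]
      rfl
    have hSa : ∀ n, S n (α x) = S (n + 1) x - h x := by
      intro n
      rw [hSdef, hSdef, add_comm n 1, hSadd, hS1, zpow_one]
      ring
    have hTa : ∀ n, T n (α x) = T (n + 1) x - h₁ x := by
      intro n
      rw [hTdef, hTdef, add_comm n 1, hTadd, hT1, zpow_one]
      ring
    unfold FLW_G
    rw [hTa, sub_add_eq_add_sub]
    congr 2
    apply Finset.sum_congr rfl
    intro j _
    have e1 : -(M : ℤ) + (j : ℤ) + 1 = -(M : ℤ) + 1 + j := by ring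
    have e2 : ρ (-(M : ℤ) + (j : ℤ)) (α x) = ρ (-(M : ℤ) + 1 + (j : ℤ)) x := by
      rw [hρdef, hρdef, hpow, e1]
    rw [e2, hSa, hSa, min_sub_sub_right, min_sub_sub_right, e1]
    ring
  have hcont : Continuous (fun p : X × ℝ => R p.1 p.2) := by
    rw [continuous_iff_continuousAt]
    rintro ⟨x0, s0⟩
    obtain ⟨M, hM⟩ : ∃ M : ℕ, M = ⌈(|s0| + 1) / δ⌉₊ := ⟨_, rfl⟩
    have h3 : Continuous (fun p : X × ℝ => FLW_G S T ρ (-(M : ℤ)) (2 * M) p.1 p.2) := by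
      unfold FLW_G
      refine ((hTc _).comp continuous_fst).add ?_
      refine continuous_finsetSum _ fun j _ => ?_
      have hα : ∀ n : ℤ, Continuous (fun p : X × ℝ => (α ^ n) p.1) := fun n =>
        (α ^ n).continuous.comp continuous_fst
      refine Continuous.mul ?_ ?_
      · simp only [hρdef]
        exact ((h₁.continuous.comp (hα _))).div (h.continuous.comp (hα _)) fun p => (hpos _).ne'
      · exact (continuous_snd.min ((hSc _).comp continuous_fst)).sub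
          (continuous_snd.min ((hSc _).comp continuous_fst))
    refine h3.continuousAt.congr ?_
    have h4 : ∀ᶠ p : X × ℝ in 𝓝 (x0, s0), |p.2| < |s0| + 1 := by
      have h5 : Continuous (fun p : X × ℝ => |p.2|) := continuous_abs.comp continuous_snd
      exact h5.continuousAt.eventually_lt continuousAt_const (by show |s0| < |s0| + 1; linarith)
    filter_upwards [h4] with p hp
    apply hRw
    rw [hM]
    exact Nat.ceil_mono (div_le_div_of_nonneg_right hp.le hδ.le)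
  refine ⟨fun x τ => R x (-τ), δ₀, by rw [hδ₀]; exact lt_min hδ1 hδ2, ?_, ?_, ?_⟩
  · exact hcont.comp (continuous_fst.prodMk continuous_snd.neg)
  · intro x τ
    show R (α x) (-(τ + (h₁ x + h₂ x))) = R x (-τ) - h₁ x
    rw [← hshift, hhx]
    congr 1
    ring
  · intro x τ
    show δ₀ ≤ R x (-τ) - R x (-(τ + 1)) ∧ R x (-τ) - R x (-(τ + 1)) ≤ 1 - δ₀
    obtain ⟨M, hM1, hM2⟩ : ∃ M : ℕ, ⌈|-τ| / δ⌉₊ ≤ M ∧ ⌈|-(τ + 1)| / δ⌉₊ ≤ M :=
      ⟨max _ _, le_max_left _ _, le_max_right _ _⟩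
    rw [← hRw _ M _ hM1, ← hRw _ M _ hM2]
    have h3 := FLW_incr (T := T) hSm hρ (-(M : ℤ)) (2 * M) x (-(τ + 1)) (-τ) (by linarith)
      (hwin _ M x hM2).1 (hwin _ M x hM1).2
    have e : -τ - -(τ + 1) = 1 := by ring
    rw [e, mul_one, mul_one] at h3
    exact h3

end Pool.Agent.CZ
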